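import Pool.Agent.Results.MP_78d38b_nt.ExactProportionFields
import Pool.Agent.Y667.BK.Fin
import Pool.Agent.Y667.BKK.Main

/-!
# Bloch–Kato Selmer groups of the twists of `X_0(14)` over every multiquadratic field of a class

`E_D : y² = x³ + 5805 D² x - 285714 D³` is the twist by `D` of the non-CM curve `E_1 = X_0(14)`. The class
`Adm` consists of the discriminants `D` of any sign which are squarefree, `≡ 1 mod 4`, prime to `42`, squares
modulo `7`, and whose prime factors split completely in `ℚ(i, √2, √-7)` or are inert in `ℚ(√2)` and in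
`ℚ(√-7)`; `D` is good if moreover `E_D(ℚ)` is finite and `Ш(E_D/ℚ)[2] = 0`. Let `K = ℚ(√d_1, …, √d_n)`, of
degree `2ⁿ`, be any field with all `d_i` in the class up to squares, and `M` a number of the class up to squares.
For at least the proportion `c ^ (2 ^ n)` of the `D` of the class, `c = ∏ (1 - 2 ^ (-2 i - 1)) = 0.419…`,

* `E_{M D}(K) ⊗ ℚ₂ = 0` and `H¹_f(K, V₂ E_{M D}) = 0`, so that the 2-adic Abel–Jacobi (Kummer) map
  `E_{M D}(K) ⊗ ℚ₂ → H¹_f(K, V₂ E_{M D})` is an isomorphism, and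
* `L(E_{M D}/K, s)` is entire and `L(E_{M D}/K, 1) ≠ 0`, so that
  `dim H¹_f(K, V₂ E_{M D}) = ord_{s = 1} L(E_{M D}/K, s) = 0`, the formula of Bloch and Kato.

The same holds for `E_M` over `K` if all the numbers `M ∏_{i ∈ T} d_i` are good up to squares, and then also for
the fixed curve `E_M` over the varying fields `K(√D)` for at least the proportion `c ^ (2 ^ n)` of the `D` of the
class.

The definitions of the class and of the `L`-function are those of
`Pool.Agent.Results.MP_78d38b_nt.ExactProportionFields` (projects `Y687.MQ`, `Y687.JQ` of the starting library),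
the Bloch–Kato Selmer group is that of `Pool.Agent.Y667.BKK.Main`.
-/

set_option autoImplicit false

open NumberField IsDedekindDomain Filter Topology

namespace Pool.Agent.Results.MP_787500_nt.BlochKatoExactProportion

open Pool.Agent.Results.MP_78d38b_nt.ExactProportionFields (EK IsL GoodPair IsMultiquadratic AdmSq Fam c prop
  prop_mono parts)

open Classical in
/-- `E_M(K) ⊗ ℚ₂ = 0` and the Bloch–Kato Selmer group `H¹_f(K, V₂ E_M)` is zero, and the `L`-function of `E_M`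
over `K` (without the Euler factors at the places dividing `42 M m`) is entire and not zero at `1`. -/
def BlochKatoZero (K : Type) [Field K] [NumberField K] (M m : ℤ) : Prop :=
  (∀ x : TensorProduct ℤ (EK K M).toAffine.Point ℚ_[2], x = 0) ∧
  (∀ x : Pool.Agent.Y667.BKK.H1f (EK K M), x = 0) ∧
  (∃ F : ℂ → ℂ, IsL K M m F) ∧ ∀ F : ℂ → ℂ, IsL K M m F → F 1 ≠ 0

theorem zero_of {n : ℕ} {M : ℤ} {d : Fin n → ℤ} (hd : GoodPair M d) (K : Type) [Field K]
    [NumberField K] (hK : IsMultiquadratic d K) :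
    Module.finrank ℚ K = 2 ^ n ∧ BlochKatoZero K M (∏ i, d i) := by
  classical
  obtain ⟨h1, -, h2, h3, h4, h5⟩ := parts.1 n M d hd K hK
  have h3' : Finite (EK K M).toAffine.Point := h3
  exact ⟨h1, Pool.Agent.Y667.BK.tensor_zero, Pool.Agent.Y667.BKK.h1f_zero h3' n h2, h4, h5⟩

/-- **The Bloch–Kato Selmer groups over the multiquadratic fields of the class.** -/
theorem result :
    (∀ (n : ℕ) (M : ℤ) (d : Fin n → ℤ), GoodPair M d → ∀ (K : Type) [Field K] [NumberField K],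
      IsMultiquadratic d K → Module.finrank ℚ K = 2 ^ n ∧ BlochKatoZero K M (∏ i, d i)) ∧
    (∀ (n : ℕ) (d : Fin n → ℤ) (M : ℤ), Fam d → AdmSq M → ∀ (K : Type) [Field K] [NumberField K],
      IsMultiquadratic d K → ∀ ε : ℤ, (ε = 1 ∨ ε = -1) → ∀ δ : ℝ, 0 < δ → ∃ X₀ : ℕ, ∀ X : ℕ, X₀ ≤ X →
        c ^ 2 ^ n - δ ≤ prop ε (fun D => BlochKatoZero K (M * (ε * D)) (∏ i, d i)) X) ∧
    (∀ (n : ℕ) (M : ℤ) (d : Fin n → ℤ), GoodPair M d → ∀ ε : ℤ, (ε = 1 ∨ ε = -1) →
      ∀ δ : ℝ, 0 < δ → ∃ X₀ : ℕ, ∀ X : ℕ, X₀ ≤ X → c ^ 2 ^ n - δ ≤ prop ε (fun D =>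
        ∀ (K : Type) [Field K] [NumberField K],
          IsMultiquadratic (Fin.snoc d (ε * D) : Fin (n + 1) → ℤ) K →
          Module.finrank ℚ K = 2 ^ (n + 1) ∧
          BlochKatoZero K M (∏ i, (Fin.snoc d (ε * D) : Fin (n + 1) → ℤ) i)) X) ∧
    0.4194 < c ∧ c < 0.4195 := by
  obtain ⟨h1, h2, h3, h4, h5⟩ := parts
  have low : ∀ (f : ℕ → ℝ) (a : ℝ), Tendsto f atTop (𝓝 a) → ∀ δ : ℝ, 0 < δ →
      ∃ X₀ : ℕ, ∀ X : ℕ, X₀ ≤ X → a - δ ≤ f X := by
    intro f a hf δ hδ
    have h := hf.eventually (lt_mem_nhds (show a - δ < a by linarith))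
    obtain ⟨X₀, hX⟩ := eventually_atTop.1 h
    exact ⟨X₀, fun X hX' => (hX X hX').le⟩
  refine ⟨fun n M d hd K _ _ hK => zero_of hd K hK,
    fun n d M hd hM K _ _ hK ε hε δ hδ => ?_, fun n M d hd ε hε δ hδ => ?_, h4, h5⟩
  · obtain ⟨X₀, hX⟩ := low _ _ (h2 n d M hd hM ε hε) δ hδ
    exact ⟨X₀, fun X hX' => (hX X hX').trans (prop_mono (fun D hD => (zero_of hD K hK).2) X)⟩
  · obtain ⟨X₀, hX⟩ := low _ _ (h3 n M d hd ε hε) δ hδ
    refine ⟨X₀, fun X hX' => (hX X hX').trans (prop_mono (fun D hD => ?_) X)⟩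
    intro K _ _ hK
    exact zero_of hD K hK

end Pool.Agent.Results.MP_787500_nt.BlochKatoExactProportion
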