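import Pool.Agent.Results.MP_78d38b_nt.PositiveProportionSha
import Pool.Agent.Y667.BKK.Main

/-!
# Bloch–Kato Selmer groups of a positive proportion of the elliptic curves over `ℚ(i)` with `j = 1728`

`K` is a number field with an isomorphism `e` of the ring `ℤ[i]` of Gaussian integers with its ring
of integers (so `K = ℚ(i)`).  Every elliptic curve over `K` with `j = 1728` is isomorphic to
`E_D : y² = x³ + D x` for exactly one Gaussian integer `D` that no fourth power of a prime divides.

For a positive proportion of all these `D`, ordered by norm,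

* `E_D(K) ⊗ ℚ₂ = 0` and `H¹_f(K, V₂ E_D) = 0`, so that the 2-adic Abel–Jacobi (Kummer) map
  `E_D(K) ⊗ ℚ₂ → H¹_f(K, V₂ E_D)` is an isomorphism, and
* `L(E_D/K, s)` is entire and `L(E_D/K, 1) ≠ 0`, so that
  `dim H¹_f(K, V₂ E_D) = ord_{s = 1} L(E_D/K, s) = 0`, the formula of Bloch and Kato.

The Bloch–Kato Selmer group is that of `Pool.Agent.Y667.BKK.Main`, the family and the `L`-function
are those of `Pool.Agent.Results.MP_78d38b_nt.PositiveProportionSha`, whose theorem on the
Tate–Shafarevich groups is the main ingredient.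
-/

set_option autoImplicit false

namespace Pool.Agent.Results.MP_787500_nt.BlochKatoGaussianField

open NumberField
open Pool.Agent.Results.MP_78d38b_nt.PositiveProportionSha (Family FourthPowerFree curve
  CentralValueNonzero Proved family_finite classification)

open Classical in
/-- `E(K) ⊗ ℚ₂ = 0` and the Bloch–Kato Selmer group `H¹_f(K, V₂ E)` is zero. -/
def BlochKatoZero {K : Type} [Field K] [NumberField K] (E : WeierstrassCurve K) : Prop :=
  (∀ x : TensorProduct ℤ E.toAffine.Point ℚ_[2], x = 0) ∧
  (∀ x : Pool.Agent.Y667.BKK.H1f E, x = 0)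

/-- The parameters `D` of norm at most `X` without fourth power of a prime such that, for `K = ℚ(i)`
and `E_D : y² = x³ + D x`, the groups `E_D(K) ⊗ ℚ₂` and `H¹_f(K, V₂ E_D)` are zero and the central value
of the `L`-function of `E_D/K` is not zero. -/
def Settled (X : ℕ) : Set GaussianInt :=
  {D | D ∈ Family X ∧ ∀ (K : Type) [Field K] [NumberField K] (e : GaussianInt ≃+* 𝓞 K),
    BlochKatoZero (curve e D) ∧ CentralValueNonzero (curve e D)}

theorem settled_of {X : ℕ} {D : GaussianInt} (h : D ∈ Proved X) : D ∈ Settled X := by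
  classical
  refine ⟨h.1, fun K _ _ e => ?_⟩
  obtain ⟨h1, h2, h3⟩ := h.2 K e
  have hfin : Finite (curve e D).toAffine.Point := Nat.finite_of_card_ne_zero (by rw [h2]; norm_num)
  refine ⟨⟨Pool.Agent.Y667.BK.tensor_zero, ?_⟩, h3⟩
  exact Pool.Agent.Y667.BKK.h1f_zero hfin 0 (fun k x hx => by rw [pow_zero, one_smul]; exact h1 k x hx)

/-- **The Bloch–Kato Selmer groups of a positive proportion of the curves with `j = 1728` over
`ℚ(i)`.**  The first part is the classification of these curves. -/
theorem result :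
    (∀ (K : Type) [Field K] [NumberField K] (e : GaussianInt ≃+* 𝓞 K) (E : WeierstrassCurve K)
      [E.IsElliptic], E.j = 1728 → ∃! D : GaussianInt, FourthPowerFree D ∧
        ∃ C : WeierstrassCurve.VariableChange K, C • E = curve e D) ∧
    ∃ c : ℝ, 0 < c ∧ ∃ X₀ : ℕ, ∀ X : ℕ, X₀ ≤ X →
      c * ((Family X).ncard : ℝ) ≤ ((Settled X).ncard : ℝ) ∧ c * X ≤ ((Settled X).ncard : ℝ) := by
  refine ⟨fun K _ _ e E _ hj => classification e E hj, ?_⟩
  obtain ⟨c, hc, X₀, h⟩ := Pool.Agent.Results.MP_78d38b_nt.PositiveProportionSha.result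
  refine ⟨c, hc, X₀, fun X hX => ?_⟩
  have h1 : ((Proved X).ncard : ℝ) ≤ ((Settled X).ncard : ℝ) := by
    have := Set.ncard_le_ncard (fun D (hD : D ∈ Proved X) => settled_of hD)
      ((family_finite X).subset fun D hD => hD.1)
    exact_mod_cast this
  exact ⟨(h X hX).1.trans h1, (h X hX).2.trans h1⟩

end Pool.Agent.Results.MP_787500_nt.BlochKatoGaussianField
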