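import Pool.Agent.H96S.BKJ.Main
import Pool.Agent.Y723.PT.Main
import Pool.Agent.Y676.Tsm
import Pool.Agent.Y660.TS.Rnk
import Pool.Agent.Y46.KEY.Key

/-!
# Bloch–Kato Selmer groups of the Jacobians of tiny twists of hyperelliptic curves of every genus

Let `g ≥ 1`. All the curves `C_a : y² = (x - a_0) (x - a_1) ... (x - a_{2 g})` with distinct integers
`a_i`, ordered by `max |a_i|`. Every hyperelliptic curve over `ℚ` of genus `g` all of whose `2 g + 2`
Weierstrass points are rational is isomorphic over `ℚ` to such a curve. For almost all of these curves,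
for a positive proportion of the primes `q` up to any bound larger than a power of `log max |a_i|`, the
Jacobian `J_q` of the quadratic twist by `q` satisfies

* `H¹_f(ℚ, V₂ J_q) = 0`, the Bloch–Kato Selmer group of `H¹` of the curve;
* `#(J_q(ℚ) / 2 ^ m J_q(ℚ)) = 2 ^ (2 g)` for all `m ≥ 1`, and `J_q(ℚ) ⊗ ℚ₂ = 0` if `J_q(ℚ)` is finitely
  generated (which it is by the theorem of Mordell and Weil);

so that the 2-adic Abel–Jacobi map `J_q(ℚ) ⊗ ℚ₂ → H¹_f(ℚ, V₂ J_q)` of the curve is an isomorphism.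

The group of the points of `J` over an algebraically closed field and the absolute Galois group are
defined in `Pool.Agent.Y723.SJ.Def`, the Bloch–Kato Selmer group in `Pool.Agent.H96S.BKJ.Def`.
-/

set_option autoImplicit false

namespace Pool.Agent.Results.MP_787500_nt.BlochKatoJacobians

open Finset Pool.Agent.Y723.SJ Pool.Agent.H96S.BKJ

open Classical in
/-- the tuples of distinct integers of absolute value at most `X` -/
noncomputable def Fam (g X : ℕ) : Finset (Fin (2 * g + 1) → ℤ) :=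
  (Fintype.piFinset (fun _ : Fin (2 * g + 1) => Icc (-(X : ℤ)) X)).filter Function.Injective

/-- The tuple `(q a_0, ..., q a_{2 g})`. The curve `y² = ∏ (x - q a_i)` is the quadratic twist
`q y² = ∏ (x - a_i)` of the curve `y² = ∏ (x - a_i)`: multiply `x` by `q` and `y` by `q ^ (g + 1)`. -/
def twist {g : ℕ} (q : ℕ) (a : Fin (2 * g + 1) → ℤ) : Fin (2 * g + 1) → ℤ := fun i => (q : ℤ) * a i

/-- For the Jacobian `J` of `y² = ∏ (x - a_i)`: the Bloch–Kato Selmer group `H¹_f(ℚ, V₂ J)` is zero,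
`#(J(ℚ) / 2 ^ m J(ℚ)) = 2 ^ (2 g)` for all `m ≥ 1`, and `J(ℚ) ⊗ ℚ₂ = 0` if `J(ℚ)` is finitely
generated. -/
def BlochKatoZero {g : ℕ} (a : Fin (2 * g + 1) → ℤ) : Prop :=
  (∀ x : H1f a, x = 0) ∧
  (∀ m : ℕ, 1 ≤ m → Nat.card (QuotQ a (2 ^ m)) = 2 ^ (2 * g)) ∧
  (AddGroup.FG (JacQ a) → ∀ x : TensorProduct ℤ (JacQ a) ℚ_[2], x = 0)

open Classical in
/-- the primes `q ≤ Q` such that `BlochKatoZero` holds for the twist by `q` -/
noncomputable def Good {g : ℕ} (Q : ℕ) (a : Fin (2 * g + 1) → ℤ) : Finset ℕ :=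
  (Icc 1 Q).filter (fun q => q.Prime ∧ BlochKatoZero (twist q a))

lemma Fam_eq (g X : ℕ) : Fam g X = Pool.Agent.Y723.JG.Fm (2 * g + 1) X := by
  classical
  unfold Fam Pool.Agent.Y723.JG.Fm Pool.Agent.TH344.JG.BoxJ
  exact filter_congr fun a _ => Iff.rfl

lemma zero_of {g : ℕ} {a : Fin (2 * g + 1) → ℤ} (h : ∀ m : ℕ, 1 ≤ m →
    Nat.card (QuotQ a (2 ^ m)) = 2 ^ (2 * g) ∧ Nat.card (ShaTorsion a (2 ^ m)) = 1) :
    BlochKatoZero a := by
  have h4 := div_of_card (a := a) (2 ^ (2 * g)) (by positivity) (h 1 le_rfl).1 (h 2 (by norm_num)).1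
  refine ⟨h1f_zero h4 fun k x hx => ?_, fun m hm => (h m hm).1, fun hfg => tensor_zero h4 hfg⟩
  have h1 := (h (k + 1) (by omega)).2
  rw [Nat.card_eq_one_iff_unique] at h1
  have hsub : Subsingleton (ShaTorsion a (2 ^ (k + 1))) := h1.1
  have h0 : (2 ^ (k + 1) : ℕ) • (0 : Sha a) = 0 := smul_zero _
  have hx' : (2 ^ (k + 1) : ℕ) • x = 0 := by
    rw [pow_succ, mul_comm, mul_smul, hx, smul_zero]
  have h2 : (⟨x, hx'⟩ : ShaTorsion a (2 ^ (k + 1))) = ⟨0, h0⟩ := hsub.elim _ _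
  exact congrArg Subtype.val h2

lemma Good_sub {g : ℕ} (Q : ℕ) (a : Fin (2 * g + 1) → ℤ) :
    Pool.Agent.Y723.PT.TQ Q a ⊆ Good Q a := by
  classical
  intro q hq
  unfold Pool.Agent.Y723.PT.TQ at hq
  unfold Good
  rw [mem_filter] at hq ⊢
  exact ⟨hq.1, hq.2.1, zero_of hq.2.2⟩

open Classical in
/-- **Theorem.** For every `g ≥ 1` there is a constant `C` such that for every `ε > 0` there are
`c > 0` and `X₀` such that for all `X ≥ X₀` and all `Q ≥ (log X) ^ C` the following holds for all but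
at most `ε * #(Fam g X)` of the tuples `a` of `Fam g X`: there are at least `c * Q / log Q` primes
`q ≤ Q` (a positive proportion of all the primes up to `Q`) such that the Jacobian `J_q` of
`y² = ∏ (x - q a_i)` satisfies `H¹_f(ℚ, V₂ J_q) = 0`, `#(J_q(ℚ) / 2 ^ m J_q(ℚ)) = 2 ^ (2 g)` for all
`m ≥ 1`, and `J_q(ℚ) ⊗ ℚ₂ = 0` if `J_q(ℚ)` is finitely generated. -/
theorem result : ∀ g : ℕ, 1 ≤ g → ∃ C : ℕ, ∀ ε : ℝ, 0 < ε → ∃ c : ℝ, 0 < c ∧ ∃ X₀ : ℕ,
    ∀ X : ℕ, X₀ ≤ X → ∀ Q : ℕ, (Real.log X) ^ C ≤ Q →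
      (((Fam g X).filter (fun a => ¬ c * Q / Real.log Q ≤ ((Good Q a).card : ℝ))).card : ℝ) ≤
        ε * ((Fam g X).card : ℝ) := by
  intro g hg
  refine ⟨Pool.Agent.Y723.PT.CE (2 * g + 1), fun ε hε => ?_⟩
  obtain ⟨c, hc, X₀, h⟩ := Pool.Agent.Y723.PT.mainJ
    (Pool.Agent.Y46.KEY.key_of Pool.Agent.Y660.TS.rnk Pool.Agent.Y676.Tsm.tsm) hg ε hε
  refine ⟨c, hc, X₀, fun X hX Q hQ => ?_⟩
  have h1 := h X hX Q hQ
  rw [← Fam_eq] at h1
  refine le_trans ?_ h1
  have h2 : (Fam g X).filter (fun a => ¬ c * Q / Real.log Q ≤ ((Good Q a).card : ℝ)) ⊆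
      (Fam g X).filter (fun a => ¬ c * Q / Real.log Q ≤
        ((Pool.Agent.Y723.PT.TQ Q a).card : ℝ)) := by
    intro a ha
    rw [mem_filter] at ha ⊢
    refine ⟨ha.1, fun h3 => ha.2 (h3.trans ?_)⟩
    exact_mod_cast card_le_card (Good_sub Q a)
  exact_mod_cast card_le_card h2

end Pool.Agent.Results.MP_787500_nt.BlochKatoJacobians
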