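import Pool.Agent.Results.MP_78d38b_nt.QuadraticFieldsTwoPart
import Pool.Agent.Y667.BKK.Main
import Pool.Agent.Y667.BK.Fin
import Pool.Agent.H64R2.DD_MWK

/-!
# Bloch–Kato Selmer groups over quadratic fields, for tuples of curves with full rational 2-torsion

All the elliptic curves `E` over `ℚ` with full rational 2-torsion, ordered by height, and quadratic
fields `K = ℚ(√(d q))`, `ℚ(√(d₁ q₁ d₂ q₂))` with fixed nonzero integers `d`, `d₁`, `d₂` and primes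
`q`, `q₁`, `q₂` of polylogarithmic size.

* For a positive proportion of the `k`-tuples of curves, independent of `d`, and a positive
  proportion of the primes `q`, all the curves `E` of the tuple have `E(K) ⊗ ℚ₂ = 0` and
  `H¹_f(K, V₂ E) = 0` for `K = ℚ(√(d q))`.
* For almost all `k`-tuples of curves and a positive proportion of the pairs of primes `q₁, q₂` the
  twists `E'` by `d₁ q₁` of all the curves of the tuple have `E'(K) ⊗ ℚ₂ = 0` and
  `H¹_f(K, V₂ E') = 0` for `K = ℚ(√(d₁ q₁ d₂ q₂))`.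

So the 2-adic Abel–Jacobi (Kummer) map `E(K) ⊗ ℚ₂ → H¹_f(K, V₂ E)` is an isomorphism in these cases.
The main ingredient is the theorem of `Pool.Agent.Results.MP_78d38b_nt.QuadraticFieldsTwoPart` on
the Tate–Shafarevich groups; the Bloch–Kato Selmer group is that of `Pool.Agent.Y667.BKK.Main`.
-/

set_option autoImplicit false

namespace Pool.Agent.Results.MP_787500_nt.BlochKatoQuadraticFields

open Finset
open Pool.Agent.Results.MP_78d38b_nt.QuadraticFieldsTwoPart (E Tw Fam IsSqrtField Settled Good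
  GoodPair countGood countPairs)

open Classical in
/-- `W(K) ⊗ ℚ₂ = 0` and the Bloch–Kato Selmer group `H¹_f(K, V₂ W)` is zero. -/
def BlochKatoZero {K : Type} [Field K] [NumberField K] (W : WeierstrassCurve K) : Prop :=
  (∀ x : TensorProduct ℤ W.toAffine.Point ℚ_[2], x = 0) ∧
  (∀ x : Pool.Agent.Y667.BKK.H1f W, x = 0)

/-- the groups of the curve `E` over `K = ℚ(√m)` are zero -/
def Zero (m : ℤ) (c : ℤ × ℤ) : Prop :=
  ∀ (K : Type) [Field K] [NumberField K], IsSqrtField m K → BlochKatoZero (E K c)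

/-- the groups of the twist of `E` by `m₁` over `K = ℚ(√(m₁ m₂))` are zero -/
def ZeroPair (m₁ m₂ : ℤ) (c : ℤ × ℤ) : Prop :=
  ∀ (K : Type) [Field K] [NumberField K], IsSqrtField (m₁ * m₂) K → BlochKatoZero (Tw K m₁ c)

open Classical in
/-- the number of the primes `q ≤ Q` such that `Zero (d q) E` for all the curves of the tuple -/
noncomputable def countZero {k : ℕ} (d : ℤ) (Q : ℕ) (x : Fin k → ℤ × ℤ) : ℕ :=
  ((Icc 1 Q).filter (fun q : ℕ => q.Prime ∧ ∀ i, Zero (d * q) (x i))).card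

open Classical in
/-- the number of the pairs of different primes `q₁, q₂ ≤ Q` such that `ZeroPair (d₁ q₁) (d₂ q₂) E`
for all the curves of the tuple -/
noncomputable def countZeroPairs {k : ℕ} (d₁ d₂ : ℤ) (Q : ℕ) (x : Fin k → ℤ × ℤ) : ℕ :=
  ((Icc 1 Q ×ˢ Icc 1 Q).filter (fun q : ℕ × ℕ => q.1.Prime ∧ q.2.Prime ∧ q.1 ≠ q.2 ∧
    ∀ i, ZeroPair (d₁ * q.1) (d₂ * q.2) (x i))).card

/-- a settled curve with nonzero discriminant -/
lemma zero_of {K : Type} [Field K] [NumberField K] {c : ℤ × ℤ}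
    (hD : 4 * c.1 ^ 3 + 27 * c.2 ^ 2 ≠ 0) (h : Settled (E K c)) : BlochKatoZero (E K c) := by
  classical
  obtain ⟨h1, -, h3⟩ := h
  have hfg : AddGroup.FG (E K c).toAffine.Point :=
    Pool.Agent.H64R2.DDMWK.mwk K c.1 c.2 hD
  have hfin : Finite (E K c).toAffine.Point := Pool.Agent.Y667.BK.finite_of_rk hfg h1
  exact ⟨Pool.Agent.Y667.BK.tensor_zero,
    Pool.Agent.Y667.BKK.h1f_zero hfin 1 (fun k x hx => by rw [pow_one]; exact h3 k x hx)⟩

lemma disc_tw {c : ℤ × ℤ} {d : ℤ} (hd : d ≠ 0) (hD : 4 * c.1 ^ 3 + 27 * c.2 ^ 2 ≠ 0) :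
    4 * (d ^ 2 * c.1) ^ 3 + 27 * (d ^ 3 * c.2) ^ 2 ≠ 0 := by
  have h : 4 * (d ^ 2 * c.1) ^ 3 + 27 * (d ^ 3 * c.2) ^ 2 =
      d ^ 6 * (4 * c.1 ^ 3 + 27 * c.2 ^ 2) := by ring
  rw [h]
  exact mul_ne_zero (pow_ne_zero _ hd) hD

lemma disc_fam {H : ℕ} {c : ℤ × ℤ} (hc : c ∈ Fam H) : 4 * c.1 ^ 3 + 27 * c.2 ^ 2 ≠ 0 := by
  classical
  unfold Fam at hc
  exact (mem_filter.1 hc).2.1

lemma zero_good {H : ℕ} {m : ℤ} {c : ℤ × ℤ} (hc : c ∈ Fam H) (h : Good m c) : Zero m c :=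
  fun K _ _ hK => zero_of (disc_fam hc) (h K hK)

lemma zero_pair {H : ℕ} {m₁ m₂ : ℤ} {c : ℤ × ℤ} (hm : m₁ ≠ 0) (hc : c ∈ Fam H)
    (h : GoodPair m₁ m₂ c) : ZeroPair m₁ m₂ c :=
  fun K _ _ hK => zero_of (c := (m₁ ^ 2 * c.1, m₁ ^ 3 * c.2)) (disc_tw hm (disc_fam hc)) (h K hK)

open Classical in
lemma count_le {H k Q : ℕ} {d : ℤ} {x : Fin k → ℤ × ℤ}
    (hx : x ∈ Fintype.piFinset (fun _ : Fin k => Fam H)) :
    countGood d Q x ≤ countZero d Q x := by
  unfold countGood countZero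
  refine card_le_card fun q hq => ?_
  rw [mem_filter] at hq ⊢
  exact ⟨hq.1, hq.2.1, fun i => zero_good (Fintype.mem_piFinset.1 hx i) (hq.2.2 i)⟩

open Classical in
lemma pairs_le {H k Q : ℕ} {d₁ d₂ : ℤ} (hd₁ : d₁ ≠ 0) {x : Fin k → ℤ × ℤ}
    (hx : x ∈ Fintype.piFinset (fun _ : Fin k => Fam H)) :
    countPairs d₁ d₂ Q x ≤ countZeroPairs d₁ d₂ Q x := by
  unfold countPairs countZeroPairs
  refine card_le_card fun q hq => ?_
  rw [mem_filter] at hq ⊢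
  obtain ⟨h0, h1, h2, h3, h4⟩ := hq
  exact ⟨h0, h1, h2, h3, fun i => zero_pair (mul_ne_zero hd₁ (by exact_mod_cast h1.ne_zero))
    (Fintype.mem_piFinset.1 hx i) (h4 i)⟩

open Classical in
/-- **Theorem.** For every `k` there are constants `C` and `δ > 0` such that for all nonzero integers
`d₁`, `d₂` and every `ε > 0` there is a constant `c > 0` such that for all large `H` and all
`Q ≥ (log H) ^ C` the following holds for the `k`-tuples of the elliptic curves over `ℚ` with full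
rational 2-torsion and height at most `H`.
(1) For at least `δ * (#Fam H) ^ k` tuples there are at least `c * Q / log Q` primes `q ≤ Q` such that
over `K = ℚ(√(d₁ q))` all the curves `E` of the tuple have `E(K) ⊗ ℚ₂ = 0` and `H¹_f(K, V₂ E) = 0`.
(2) For all but at most `ε * (#Fam H) ^ k` tuples there are at least `c * (Q / log Q) ^ 2` pairs of
different primes `q₁, q₂ ≤ Q` such that over `K = ℚ(√(d₁ q₁ d₂ q₂))` the twists `E'` by `d₁ q₁` of all
the curves of the tuple have `E'(K) ⊗ ℚ₂ = 0` and `H¹_f(K, V₂ E') = 0`. -/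
theorem result : ∀ k : ℕ, ∃ (C : ℕ) (δ : ℝ), 0 < δ ∧ ∀ d₁ d₂ : ℤ, d₁ ≠ 0 → d₂ ≠ 0 →
    ∀ ε : ℝ, 0 < ε → ∃ c : ℝ, 0 < c ∧
    ∃ H₀ : ℕ, ∀ H : ℕ, H₀ ≤ H → ∀ Q : ℕ, (Real.log H) ^ C ≤ Q →
    δ * ((Fam H).card : ℝ) ^ k ≤
      (((Fintype.piFinset (fun _ : Fin k => Fam H)).filter (fun x : Fin k → ℤ × ℤ =>
        c * Q / Real.log Q ≤ (countZero d₁ Q x : ℝ))).card : ℝ) ∧
    (((Fintype.piFinset (fun _ : Fin k => Fam H)).filter (fun x : Fin k → ℤ × ℤ =>
      ¬ c * (Q / Real.log Q) ^ 2 ≤ (countZeroPairs d₁ d₂ Q x : ℝ))).card : ℝ) ≤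
        ε * ((Fam H).card : ℝ) ^ k := by
  intro k
  obtain ⟨C, δ, hδ, h⟩ := Pool.Agent.Results.MP_78d38b_nt.QuadraticFieldsTwoPart.result k
  refine ⟨C, δ, hδ, fun d₁ d₂ hd₁ hd₂ ε hε => ?_⟩
  obtain ⟨c, hc, H₀, h1⟩ := h d₁ d₂ hd₁ hd₂ ε hε
  refine ⟨c, hc, H₀, fun H hH Q hQ => ?_⟩
  obtain ⟨-, h2, h3⟩ := h1 H hH Q hQ
  refine ⟨h2.trans (Nat.cast_le.2 (card_le_card fun x hx => ?_)),
    le_trans (Nat.cast_le.2 (card_le_card fun x hx => ?_)) h3⟩
  · rw [mem_filter] at hx ⊢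
    exact ⟨hx.1, hx.2.trans (Nat.cast_le.2 (count_le hx.1))⟩
  · rw [mem_filter] at hx ⊢
    exact ⟨hx.1, fun h4 => hx.2 (h4.trans (Nat.cast_le.2 (pairs_le hd₁ hx.1)))⟩

end Pool.Agent.Results.MP_787500_nt.BlochKatoQuadraticFields
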